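import Pool.Agent.Helper78.AE.Spec

/-! MP_8e9e20_co: part EQ2B (the equality case with a negative eigenvalue does not occur). -/

set_option autoImplicit false

namespace Pool.Agent.Helper31.AE.EQ2B

open Pool.Agent.Helper78.AE Matrix

variable {n : ℕ}

theorem sd {A : Matrix (Fin n) (Fin n) ℝ} (hs : ∀ i j, A i j = A j i) (x y : Fin n → ℝ) :
    A.mulVec x ⬝ᵥ y = x ⬝ᵥ A.mulVec y := by
  simp only [dotProduct, Matrix.mulVec, Finset.sum_mul, Finset.mul_sum]
  rw [Finset.sum_comm]
  refine Finset.sum_congr rfl fun i _ => Finset.sum_congr rfl fun j _ => ?_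
  rw [hs j i]; ring

theorem vv_one (u : Fin n → ℝ) : (Matrix.vecMulVec u u).mulVec (fun _ => (1 : ℝ)) = (∑ i, u i) • u := by
  ext i
  simp only [Matrix.mulVec, dotProduct, Matrix.vecMulVec_apply, mul_one, Pi.smul_apply, smul_eq_mul]
  rw [← Finset.mul_sum, mul_comm]

theorem main (hEQ2A : S_EQ2A) : S_EQ2B := by
  intro n d A hC t u0 w hT
  obtain ⟨⟨ht, hu, hw, huu, hww, huw, hAA⟩, hpos⟩ := hEQ2A n d A hC t u0 w hT
  generalize hudef : (fun i => |w i|) = u at *
  have hui : ∀ i, u i = |w i| := fun i => by rw [← hudef]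
  have hup : ∀ i, 0 < u i := fun i => by rw [hui]; exact hpos i
  obtain ⟨v, hv⟩ := hC.pts
  have hs := hC.symm
  have hv' : ∀ x : Fin n → ℝ, ∑ i, x i = 0 → 0 ≤ x ⬝ᵥ A.mulVec x + x ⬝ᵥ x := fun x hx => by
    rw [hv x hx]; positivity
  -- signs
  obtain ⟨ε, hε⟩ : ∃ ε : Fin n → ℝ, ∀ i, w i = ε i * u i :=
    ⟨fun i => w i / u i, fun i => by rw [div_mul_cancel₀ _ (hup i).ne']⟩
  have hε2 : ∀ i, ε i * ε i = 1 := fun i => by
    have h1 : w i * w i = u i * u i := by rw [hui, abs_mul_abs_self]
    rw [hε i] at h1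
    have h2 : (ε i * ε i - 1) * (u i * u i) = 0 := by linear_combination h1
    rcases mul_eq_zero.1 h2 with h | h
    · linarith
    · exact absurd h (mul_pos (hup i) (hup i)).ne'
  have hε1 : ∀ i j, -1 ≤ ε i * ε j := fun i j => by
    nlinarith [sq_nonneg (ε i + ε j), hε2 i, hε2 j]
  -- the antisymmetry
  have hanti : ∀ i j, A i j * (1 + ε i * ε j) = 0 := by
    intro i
    have h1 : ∑ j, A i j * u j = t * u i := by
      have := congrFun hu i
      simpa [Matrix.mulVec, dotProduct] using this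
    have h2 : ∑ j, A i j * (ε j * u j) = -t * (ε i * u i) := by
      have := congrFun hw i
      simp only [Matrix.mulVec, dotProduct, Pi.smul_apply, smul_eq_mul, hε] at this
      exact this
    have h3 : ∑ j, A i j * (1 + ε i * ε j) * u j = 0 := by
      have : ∑ j, A i j * (1 + ε i * ε j) * u j = ∑ j, A i j * u j + ε i * ∑ j, A i j * (ε j * u j) := by
        rw [Finset.mul_sum, ← Finset.sum_add_distrib]
        exact Finset.sum_congr rfl fun j _ => by ring
      rw [this, h1, h2]
      linear_combination (-t * u i) * hε2 i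
    have h4 := (Finset.sum_eq_zero_iff_of_nonneg (fun j _ =>
      mul_nonneg (mul_nonneg (hC.nonneg i j) (by linarith [hε1 i j])) (hup j).le)).1 h3
    intro j
    rcases mul_eq_zero.1 (h4 j (Finset.mem_univ j)) with h | h
    · exact h
    · exact absurd h (hup j).ne'
  have hanti' : ∀ i j, A i j * ε j = -(ε i * A i j) := fun i j => by
    have h := hanti i j
    linear_combination ε i * h - A i j * ε j * hε2 i
  -- the sum of the signs
  have hdiag : ∀ i, (A * A) i i = 1 + (t ^ 2 - 1) * (2 * (u i * u i)) := fun i => by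
    have h1 : w i * w i = u i * u i := by rw [hui, abs_mul_abs_self]
    rw [hAA]
    simp only [Matrix.add_apply, Matrix.one_apply_eq, Matrix.smul_apply, Matrix.vecMulVec_apply,
      smul_eq_mul, h1]
    ring
  have huw' : ∑ i, u i * w i = 0 := huw
  have hsε : ∑ i, ε i = 0 := by
    have h1 : ∑ i, ε i * (A * A) i i = -∑ i, ε i * (A * A) i i := by
      have e1 : ∀ i, ε i * (A * A) i i = ∑ j, ε i * (A i j * A j i) := fun i => by
        rw [Matrix.mul_apply, Finset.mul_sum]
      calc ∑ i, ε i * (A * A) i i = ∑ i, ∑ j, ε i * (A i j * A j i) :=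
            Finset.sum_congr rfl fun i _ => e1 i
        _ = ∑ i, ∑ j, -(ε j * (A j i * A i j)) :=
            Finset.sum_congr rfl fun i _ => Finset.sum_congr rfl fun j _ => by
              have := hanti' i j
              linear_combination (A j i) * this
        _ = ∑ j, ∑ i, -(ε j * (A j i * A i j)) := Finset.sum_comm
        _ = -∑ j, ε j * (A * A) j j := by
            rw [← Finset.sum_neg_distrib]
            refine Finset.sum_congr rfl fun j _ => ?_
            rw [e1 j, Finset.sum_neg_distrib]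
    have h2 : ∑ i, ε i * (A * A) i i = ∑ i, ε i + 2 * (t ^ 2 - 1) * ∑ i, u i * w i := by
      rw [Finset.mul_sum, ← Finset.sum_add_distrib]
      refine Finset.sum_congr rfl fun i _ => ?_
      rw [hdiag, hε i]; ring
    rw [huw'] at h2
    linarith
  -- sums of eigenvectors
  have hww' : w ⬝ᵥ A.mulVec w = -t := by rw [hw, dotProduct_smul, hww]; simp
  have hsw : ∑ i, w i ≠ 0 := fun h => by
    have := hv' w h
    rw [hww', hww] at this
    linarith
  have hz0 : ∀ z : Fin n → ℝ, A.mulVec z = -z → ∑ i, z i = 0 := by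
    intro z hz
    by_contra hne
    obtain ⟨c, hc⟩ : ∃ c : ℝ, ∑ i, w i = c * ∑ i, z i :=
      ⟨(∑ i, w i) / ∑ i, z i, by rw [div_mul_cancel₀ _ hne]⟩
    have h1 : ∑ i, (w - c • z) i = 0 := by
      simp only [Pi.sub_apply, Pi.smul_apply, smul_eq_mul, Finset.sum_sub_distrib, ← Finset.mul_sum]
      rw [hc]; ring
    have h2 := hv' _ h1
    have h3 : z ⬝ᵥ A.mulVec w = - (z ⬝ᵥ w) := by
      rw [← sd hs, hz, neg_dotProduct]
    have h4 : w ⬝ᵥ z = z ⬝ᵥ w := dotProduct_comm _ _
    rw [Matrix.mulVec_sub, Matrix.mulVec_smul, hz] at h2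
    simp only [sub_dotProduct, dotProduct_sub, smul_dotProduct, dotProduct_smul, dotProduct_neg,
      smul_eq_mul, hww', hww, h3, h4] at h2
    nlinarith
  -- the vector f
  have hone : A.mulVec (A.mulVec (fun _ => (1 : ℝ))) = (fun _ => (1 : ℝ)) +
      (t ^ 2 - 1) • ((∑ i, u i) • u + (∑ i, w i) • w) := by
    rw [Matrix.mulVec_mulVec, hAA, Matrix.add_mulVec, Matrix.one_mulVec, Matrix.smul_mulVec,
      Matrix.add_mulVec, vv_one, vv_one]
  generalize hsu_def : ∑ i, u i = su at *
  generalize hsw_def : ∑ i, w i = sw at *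
  obtain ⟨f, hf⟩ : ∃ f : Fin n → ℝ, f = (1 - t ^ 2) • (fun _ => (1 : ℝ)) +
      (t ^ 2 - 1) • (su • u + sw • w) := ⟨_, rfl⟩
  have hAf : A.mulVec f = (1 - t ^ 2) • A.mulVec (fun _ => (1 : ℝ)) +
      (t ^ 2 - 1) • (su • (t • u) + sw • (-t • w)) := by
    rw [hf]
    simp only [Matrix.mulVec_add, Matrix.mulVec_smul, hu, hw]
  have hAAf : A.mulVec (A.mulVec f) = f := by
    rw [hAf]
    simp only [Matrix.mulVec_add, Matrix.mulVec_smul, hu, hw, hone]
    rw [hf]
    ext i
    simp only [Pi.add_apply, Pi.smul_apply, smul_eq_mul]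
    ring
  obtain ⟨g, hg⟩ : ∃ g : Fin n → ℝ, g = A.mulVec f - f := ⟨_, rfl⟩
  have hAg : A.mulVec g = -g := by
    rw [hg, Matrix.mulVec_sub, hAAf]; abel
  have hsg := hz0 g hAg
  have hgu : g ⬝ᵥ u = 0 := by
    have h1 := sd hs g u
    rw [hAg, hu, neg_dotProduct, dotProduct_smul, smul_eq_mul] at h1
    have h2 : (1 + t) * (g ⬝ᵥ u) = 0 := by linear_combination -h1
    rcases mul_eq_zero.1 h2 with h | h
    · linarith
    · exact h
  have hgw : g ⬝ᵥ w = 0 := by
    have h1 := sd hs g w
    rw [hAg, hw, neg_dotProduct, dotProduct_smul, smul_eq_mul] at h1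
    have h2 : (t - 1) * (g ⬝ᵥ w) = 0 := by linear_combination h1
    rcases mul_eq_zero.1 h2 with h | h
    · linarith
    · exact h
  have hgf : g ⬝ᵥ f = 0 := by
    have h1 : g ⬝ᵥ (fun _ => (1 : ℝ)) = 0 := by
      simp only [dotProduct, mul_one]; exact hsg
    rw [hf]
    simp only [dotProduct_add, dotProduct_smul, hgu, hgw, h1, smul_eq_mul]
    ring
  have hgg : g ⬝ᵥ g = 0 := by
    have h1 : g ⬝ᵥ A.mulVec f = -(g ⬝ᵥ f) := by
      rw [← sd hs, hAg, neg_dotProduct]
    calc g ⬝ᵥ g = g ⬝ᵥ (A.mulVec f - f) := by rw [← hg]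
      _ = 0 := by rw [dotProduct_sub, h1, hgf]; ring
  have hg0 : g = 0 := dotProduct_self_eq_zero.1 hgg
  have hAf' : A.mulVec f = f := by
    rw [hg] at hg0
    exact sub_eq_zero.1 hg0
  -- the twisted vector
  have hεf : A.mulVec (fun i => ε i * f i) = -(fun i => ε i * f i) := by
    ext i
    have h1 : ∑ j, A i j * f j = f i := by
      have := congrFun hAf' i
      simpa [Matrix.mulVec, dotProduct] using this
    simp only [Matrix.mulVec, dotProduct, Pi.neg_apply]
    calc ∑ j, A i j * (ε j * f j) = ∑ j, -(ε i) * (A i j * f j) :=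
          Finset.sum_congr rfl fun j _ => by
            have := hanti' i j
            linear_combination f j * this
      _ = -(ε i * f i) := by rw [← Finset.mul_sum, h1]; ring
  have hfin := hz0 _ hεf
  have hsum : ∑ i, ε i * f i = 2 * (t ^ 2 - 1) * (su * sw) := by
    have e1 : ∀ i, ε i * f i = (1 - t ^ 2) * ε i + (t ^ 2 - 1) * su * w i + (t ^ 2 - 1) * sw * u i := by
      intro i
      rw [hf]
      simp only [Pi.add_apply, Pi.smul_apply, smul_eq_mul]
      rw [hε i]
      linear_combination (t ^ 2 - 1) * sw * u i * hε2 i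
    rw [Finset.sum_congr rfl fun i _ => e1 i, Finset.sum_add_distrib, Finset.sum_add_distrib,
      ← Finset.mul_sum, ← Finset.mul_sum, ← Finset.mul_sum, hsε, hsu_def, hsw_def]
    ring
  rw [hsum] at hfin
  have hn : (Finset.univ : Finset (Fin n)).Nonempty := by
    by_contra h
    rw [Finset.not_nonempty_iff_eq_empty] at h
    rw [dotProduct, h] at hww
    simp at hww
  have hsup : 0 < su := by
    rw [← hsu_def]
    exact Finset.sum_pos (fun i _ => hup i) hn
  have h1 : (0 : ℝ) < 2 * (t ^ 2 - 1) := by nlinarith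
  rcases mul_eq_zero.1 hfin with h | h
  · linarith
  · rcases mul_eq_zero.1 h with h | h
    · linarith
    · exact hsw h

end Pool.Agent.Helper31.AE.EQ2B
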